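import Pool.Agent.Helper83.HA.CccOf
import Pool.Agent.Helper88.HA.Nice
import Pool.Agent.Helper30.HA.Good
import Pool.Agent.Helper12.HA.Red
import Pool.Agent.Helper69.HA.Amal

/-!
# Project HA, module 8: the countable chain condition
-/

set_option autoImplicit false
set_option linter.unusedSectionVars false

namespace Pool.Agent.Helper69.HA

open Set Pool.Agent.Helper33.HM Pool.Agent.Helper33.HMG Pool.Agent.Helper32.HB
open Pool.Agent.Helper52.MA (El IsOmega1 setsM pairN numN on wN setN st PCCC)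

universe u

variable {I : Type u} [LinearOrder I] [WellFoundedLT I] {Ω : Type} [LinearOrder Ω]
  {e : Ω → ℕ → Ω → Prop} {code : I → Ω → Set (Cond I Ω)}

/-- The countable chain condition. -/
theorem pc_ccc [WellFoundedLT Ω] (he : EnumL (fun x y => x < y) e)
    (hb : ∀ s : Set Ω, s.Countable → ∃ b, ∀ x ∈ s, x < b) (hI : ∀ b : Ω, (Iio b).Countable) :
    PCCC (PC e code) := by
  obtain ⟨b₀, -⟩ := hb ∅ Set.countable_empty
  refine pc_ccc_of ⟨exists_nice he, ?_, fun hA β => countable_in hI hA β, ?_, le_red, in_red,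
    fun hA _ hp => exists_list hA hp⟩ b₀
  · intro J hJ hc A₀ hA₀ hA₀J β₀ R hR
    exact exists_good hb hI hJ hc hA₀ hA₀J β₀ R hR
  · intro A β hA p q hp hq hqp hag i₀
    obtain ⟨u, h1, h2, -⟩ := amalgam he hA hp hq hqp hag i₀ i₀ true 0
    exact ⟨u, h1, h2⟩

end Pool.Agent.Helper69.HA
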