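import Pool.Agent.Helper69.HA.Top

/-!
# Project HA, positive side: countably compact subsets are closed
-/

set_option autoImplicit false
set_option linter.unusedSectionVars false

namespace Pool.Agent.Helper69.HA

open Set Filter

/-- PS-1: in a compact hereditarily alpha-realcompact space the countably compact subsets are
closed. -/
theorem cclosed_of_har {X : Type} [TopologicalSpace X] [CompactSpace X] [T2Space X]
    (h : HerAlphaRealcompact X) {Y : Set X}
    (hY : ∀ s : ℕ → X, (∀ n, s n ∈ Y) → ∃ y ∈ Y, MapClusterPt y atTop s) : IsClosed Y := by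
  apply isClosed_of_closure_subset
  intro x hx
  by_contra hxY
  -- the closed neighbourhoods
  set F₀ : Set (Set Y) := {C | IsClosed C ∧ ∃ K ∈ nhds x, ∀ y : Y, (y : X) ∈ K → y ∈ C} with hF₀
  set 𝔖 : Set (Set (Set Y)) := {F | (∀ C ∈ F, IsClosed C) ∧
    ∀ G : Finset (Set Y), (↑G : Set (Set Y)) ⊆ F → (⋂₀ (↑G : Set (Set Y))).Nonempty} with h𝔖
  have hF₀𝔖 : F₀ ∈ 𝔖 := by
    refine ⟨fun C hC => hC.1, ?_⟩
    intro G hG
    have h1 : ∃ K ∈ nhds x, ∀ y : Y, (y : X) ∈ K → y ∈ ⋂₀ (↑G : Set (Set Y)) := by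
      classical
      induction G using Finset.induction_on with
      | empty => exact ⟨univ, univ_mem, fun y _ => by simp⟩
      | insert C G hC ih =>
        rw [Finset.coe_insert, insert_subset_iff] at hG
        obtain ⟨K, hK, hK'⟩ := ih hG.2
        obtain ⟨-, K₁, hK₁, hK₁'⟩ := hG.1
        refine ⟨K ∩ K₁, inter_mem hK hK₁, ?_⟩
        intro y hy
        rw [Finset.coe_insert, sInter_insert]
        exact ⟨hK₁' y hy.2, hK' y hy.1⟩
    obtain ⟨K, hK, hK'⟩ := h1
    obtain ⟨y, hyK, hyY⟩ := mem_closure_iff_nhds.1 hx K hK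
    exact ⟨⟨y, hyY⟩, hK' ⟨y, hyY⟩ hyK⟩
  obtain ⟨F, hF₀F, hF⟩ := zorn_subset_nonempty 𝔖 (by
    intro c hc hchain hne
    refine ⟨⋃₀ c, ⟨?_, ?_⟩, fun s hs => subset_sUnion_of_mem hs⟩
    · rintro C ⟨F, hF, hCF⟩
      exact (hc hF).1 C hCF
    · intro G hG
      obtain ⟨F, hF, hGF⟩ := DirectedOn.exists_mem_subset_of_finite_of_subset_sUnion hne
        hchain.directedOn G.finite_toSet hG
      exact (hc hF).2 G hGF) F₀ hF₀𝔖
  have hcip : ∀ G : Set (Set Y), G ⊆ F → G.Countable → (⋂₀ G).Nonempty := by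
    intro G hG hGc
    rcases G.eq_empty_or_nonempty with rfl | hGne
    · have := hF.prop.2 ∅ (by simp)
      simpa using this
    obtain ⟨C, rfl⟩ := hGc.exists_eq_range hGne
    have h1 : ∀ n : ℕ, ∃ y : Y, ∀ i ≤ n, y ∈ C i := by
      intro n
      classical
      obtain ⟨y, hy⟩ := hF.prop.2 ((Finset.range (n + 1)).image C) (by
        intro D hD
        rw [Finset.coe_image] at hD
        obtain ⟨i, -, rfl⟩ := hD
        exact hG ⟨i, rfl⟩)
      refine ⟨y, fun i hi => hy (C i) ?_⟩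
      rw [Finset.coe_image]
      exact ⟨i, by simpa using Nat.lt_succ_of_le hi, rfl⟩
    choose s hs using h1
    obtain ⟨y, hyY, hy⟩ := hY (fun n => (s n : X)) (fun n => (s n).2)
    refine ⟨⟨y, hyY⟩, ?_⟩
    rintro _ ⟨i, rfl⟩
    have hcl : IsClosed (C i) := hF.prop.1 _ (hG ⟨i, rfl⟩)
    obtain ⟨Z, hZ, hZC⟩ := isClosed_induced_iff.1 hcl
    by_contra hne
    have hyZ : y ∉ Z := by
      intro h
      apply hne
      rw [← hZC]
      exact h
    have h2 := (mapClusterPt_iff_frequently.1 hy) Zᶜ (hZ.isOpen_compl.mem_nhds hyZ)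
    have h3 : ∀ᶠ n in atTop, (s n : X) ∈ Z := by
      filter_upwards [eventually_ge_atTop i] with n hn
      have h4 := hs n i hn
      rw [← hZC] at h4
      exact h4
    obtain ⟨n, hn1, hn2⟩ := (h2.and_eventually h3).exists
    exact hn1 hn2
  obtain ⟨y, hy⟩ := h Y F hF.prop.1 hF.prop.2 (by
    intro H hFH hH1 hH2
    exact subset_antisymm (hF.le_of_ge ⟨hH1, hH2⟩ hFH) hFH) hcip
  apply hxY
  have h1 : (y : X) = x := by
    by_contra hne
    obtain ⟨K, ⟨hK, hKc⟩, hKy⟩ := (closed_nhds_basis x).mem_iff.1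
      (isOpen_compl_singleton.mem_nhds (show x ∈ ({(y : X)} : Set X)ᶜ from fun h => hne h.symm))
    have h2 : (Subtype.val ⁻¹' K : Set Y) ∈ F₀ :=
      ⟨hKc.preimage continuous_subtype_val, K, hK, fun y hy => hy⟩
    exact hKy (hy _ (hF₀F h2)) rfl
  rw [← h1]
  exact y.2

end Pool.Agent.Helper69.HA
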