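import Pool.Agent.Helper69.HA.Defs2

/-!
# Project HA, module 8: the countable chain condition, from the facts of the modules 4 to 7
-/

set_option autoImplicit false
set_option linter.unusedSectionVars false

namespace Pool.Agent.Helper69.HA

open Set Pool.Agent.Helper33.HM Pool.Agent.Helper33.HMG Pool.Agent.Helper32.HB
open Pool.Agent.Helper52.MA (El IsOmega1 setsM pairN numN on wN setN st PCCC)

universe u

section

variable {I : Type u} [LinearOrder I] [WellFoundedLT I] {Ω : Type} [LinearOrder Ω]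
  {e : Ω → ℕ → Ω → Prop} {code : I → Ω → Set (Cond I Ω)}

/-- The facts of the modules 4 to 7. -/
structure CccFacts (e : Ω → ℕ → Ω → Prop) (code : I → Ω → Set (Cond I Ω)) : Prop where
  nice : ∀ p : PC e code, ∃ q, q ≤ p ∧ Nice q ∧
    ∀ k, q.f k ≠ Dat.emp → ∃ j, k ≤ j ∧ p.f j ≠ Dat.emp
  good : ∀ {J : Set I}, (∀ i ∈ J, ∀ k, k ≤ i → k ∈ J) →
    (∀ i ∈ J, CccOn e code (Iio i)) → ∀ {A₀ : Set I}, A₀.Countable → A₀ ⊆ J → ∀ (β₀ : Ω)
    (R : PC e code → List (I × Ω × I × Bool) → ℕ → PC e code → Prop),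
    (∀ r π n p, R r π n p → ∀ i, p.f i ≠ Dat.emp → i ∈ J) →
    ∃ (A : Set I) (β : Ω), A₀ ⊆ A ∧ A ⊆ J ∧ A.Countable ∧ β₀ ≤ β ∧ Good e code A β ∧
      ∀ r π n, In A β r → (∀ z ∈ π, z.1 ∈ A ∧ z.2.1 < β ∧ z.2.2.1 ∈ A) → (∃ p, R r π n p) →
        ∃ p, In A β p ∧ R r π n p
  countable_in : ∀ {A : Set I}, A.Countable → ∀ (β : Ω), {p : PC e code | In A β p}.Countable
  amalgam : ∀ {A : Set I} {β : Ω}, Good e code A β → ∀ {p q : PC e code}, Nice p → In A β q →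
    q ≤ red A β p →
    (∀ i ∈ A, ∀ γ, γ < β → ∀ n, (p.f i).F γ n → ∀ k v, p ∈ Dv i γ k v → q ∈ Dv i γ k v) →
    I → ∃ u, u ≤ p ∧ u ≤ q
  le_red : ∀ (A : Set I) (β : Ω) (p : PC e code), p ≤ red A β p
  in_red : ∀ (A : Set I) (β : Ω) (p : PC e code), In A β (red A β p)
  list : ∀ {A : Set I} {β : Ω}, Good e code A β → ∀ {p : PC e code}, Nice p →
    ∃ π : List (I × Ω × I × Bool), (∀ z ∈ π, z.1 ∈ A ∧ z.2.1 < β ∧ z.2.2.1 ∈ A) ∧
      (∀ z ∈ π, (∃ n, (p.f z.1).F z.2.1 n) ∧ p ∈ Dv z.1 z.2.1 z.2.2.1 z.2.2.2) ∧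
      ∀ i ∈ A, ∀ γ, γ < β → ∀ n, (p.f i).F γ n → ∀ k v, p ∈ Dv i γ k v → (i, γ, k, v) ∈ π

theorem ccc_step (H : CccFacts e code) (b₀ : Ω) {J : Set I}
    (hJ : ∀ i ∈ J, ∀ k, k ≤ i → k ∈ J) (hc : ∀ i ∈ J, CccOn e code (Iio i)) :
    CccOn e code J := by
  intro A₁ hdom hinc
  rcases isEmpty_or_nonempty I with hI | ⟨⟨i₀⟩⟩
  · apply Set.Subsingleton.countable
    intro p _ q _
    exact PC.ext' fun i => hI.elim i
  choose N hN1 hN2 hN3 using H.nice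
  have hNinj : ∀ p ∈ A₁, ∀ q ∈ A₁, (∃ u, u ≤ N p ∧ u ≤ N q) → p = q := by
    intro p hp q hq ⟨u, hu1, hu2⟩
    by_contra hne
    exact hinc p hp q hq hne ⟨u, hu1.trans (hN1 p), hu2.trans (hN1 q)⟩
  obtain ⟨A, β, -, -, hAc, -, hgood, href⟩ := H.good hJ hc (A₀ := ∅) Set.countable_empty
    (Set.empty_subset _) b₀
    (fun r π _ p => p ∈ N '' A₁ ∧ p ≤ r ∧ ∀ z ∈ π, p ∈ Dv z.1 z.2.1 z.2.2.1 z.2.2.2) (by
      rintro r π n _ ⟨⟨p, hp, rfl⟩, -, -⟩ i hi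
      obtain ⟨j, hij, hj⟩ := hN3 p i hi
      exact hJ j (hdom p hp j hj) i hij)
  have hmaps : Set.MapsTo N A₁ {p : PC e code | In A β p} := by
    intro p hp
    obtain ⟨π, hπ1, hπ2, hπ3⟩ := H.list hgood (hN2 p)
    obtain ⟨_, hq, ⟨p', hp', rfl⟩, hqr, hqπ⟩ := href (red A β (N p)) π 0
      (H.in_red A β (N p)) hπ1 ⟨N p, ⟨p, hp, rfl⟩, H.le_red A β (N p), fun z hz => (hπ2 z hz).2⟩
    have hcomp := H.amalgam hgood (hN2 p) hq hqr (by
      intro i hi γ hγ n hF k v hk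
      exact hqπ _ (hπ3 i hi γ hγ n hF k v hk)) i₀
    rw [hNinj p hp p' hp' hcomp]
    exact hq
  refine Set.MapsTo.countable_of_injOn hmaps ?_ (H.countable_in hAc β)
  intro p hp q hq h
  exact hNinj p hp q hq ⟨N p, le_rfl, h ▸ le_rfl⟩

theorem pc_ccc_of (H : CccFacts e code) (b₀ : Ω) : PCCC (PC e code) := by
  have h1 : ∀ i : I, CccOn e code (Iio i) := by
    intro i
    induction i using WellFoundedLT.induction with
    | ind i ih =>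
      exact ccc_step H b₀ (fun j hj k hk => lt_of_le_of_lt hk hj) (fun j hj => ih j hj)
  intro A hA
  exact ccc_step H b₀ (J := univ) (fun _ _ _ _ => mem_univ _) (fun i _ => h1 i) A
    (fun _ _ _ _ => mem_univ _) hA

end

end Pool.Agent.Helper69.HA
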